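import Mathlib
import Pool.Agent.Q199.Asq.Defs
import Pool.Agent.Q199.Asq.Main

set_option autoImplicit false

namespace Pool.Agent.Results.MP_25d2c4_an.SymInjAsq

open Pool.Agent.Q199.Asq

/-- If the normed space `X` (over `ℝ` or `ℂ`) is almost square, then so is its completed `N`-fold
symmetric injective tensor product, for every `N ≥ 1`. -/
theorem result {𝕜 : Type} [RCLike 𝕜] (X : Type*) [NormedAddCommGroup X] [NormedSpace 𝕜 X]
    (hX : IsASQ X) (N : ℕ) (hN : 1 ≤ N) : IsASQ (SymInj 𝕜 X N) := by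
  classical
  have hmem : ∀ x : X, symPow 𝕜 N x ∈ SymInj 𝕜 X N := fun x =>
    Submodule.le_topologicalClosure _ (Submodule.subset_span ⟨x, rfl⟩)
  let τ : X → SymInj 𝕜 X N := fun x => ⟨symPow 𝕜 N x, hmem x⟩
  refine asq_general (𝕜 := 𝕜) (V := SymInj 𝕜 X N) hN τ ?_ ?_ hX
  · intro c C hC
    have h1 : ‖c.sum (fun x a => a • τ x)‖ =
        ‖(c.sum (fun x a => a • symPow 𝕜 N x) : FunB 𝕜 X)‖ := by
      have h2 : ((c.sum (fun x a => a • τ x) : SymInj 𝕜 X N) : FunB 𝕜 X) =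
          c.sum (fun x a => a • symPow 𝕜 N x) := by
        rw [Finsupp.sum, Submodule.coe_sum]; rfl
      rw [← h2]; rfl
    have hev : ∀ φ : Metric.closedBall (0 : X →L[𝕜] 𝕜) 1,
        ev φ (c.sum (fun x a => a • symPow 𝕜 N x)) =
          c.sum (fun x a => a * (φ : X →L[𝕜] 𝕜) x ^ N) := by
      intro φ
      rw [Finsupp.sum, map_sum]
      refine Finset.sum_congr rfl fun x _ => ?_
      rw [map_smul, ev_symPow, smul_eq_mul]
    rw [h1, norm_le_iff _ hC]
    constructor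
    · intro h φ hφ
      have := h ⟨φ, mem_closedBall_zero_iff.2 hφ⟩
      rwa [hev] at this
    · intro h φ
      rw [hev]
      exact h φ (mem_closedBall_zero_iff.1 φ.2)
  · intro v
    rw [Metric.mem_closure_iff]
    intro ε hε
    obtain ⟨w, hw, hvw⟩ := Metric.mem_closure_iff.1 (show (v : FunB 𝕜 X) ∈
      closure (Submodule.span 𝕜 (Set.range (symPow 𝕜 N : X → FunB 𝕜 X)) : Set (FunB 𝕜 X)) from v.2)
      ε hε
    refine ⟨⟨w, Submodule.le_topologicalClosure _ hw⟩, ?_, hvw⟩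
    obtain ⟨c, rfl⟩ := Finsupp.mem_span_range_iff_exists_finsupp.1 hw
    refine Finsupp.mem_span_range_iff_exists_finsupp.2 ⟨c, ?_⟩
    ext1
    show ((c.sum (fun x a => a • τ x) : SymInj 𝕜 X N) : FunB 𝕜 X) = _
    rw [Finsupp.sum, Submodule.coe_sum]; rfl

end Pool.Agent.Results.MP_25d2c4_an.SymInjAsq
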